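import Mathlib

namespace Pool.Agent.Results.MP_ca3412_nt.Five

theorem result : ∃ k A B : ℕ, 2 ≤ k ∧ 1 ≤ A ∧ 1 ≤ B ∧
    ∃ S : Finset (ℕ × ℕ), S.card = 5 ∧ ∀ p ∈ S, p.1 ^ 2 + A * k ^ p.2 = B := by
  refine ⟨2, 455, 489626271744, by norm_num, by norm_num, by norm_num,
    {(699733, 0), (699392, 20), (698368, 22), (606208, 28), (32768, 30)}, by decide, ?_⟩
  intro p hp
  simp only [Finset.mem_insert, Finset.mem_singleton] at hp
  rcases hp with rfl | rfl | rfl | rfl | rfl <;> norm_num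

end Pool.Agent.Results.MP_ca3412_nt.Five
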